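import Mathlib

set_option autoImplicit false

namespace Pool.Agent.Results.MP_72f8f6_ag.Counter

open MvPolynomial

section Defs
variable {R : Type} [CommRing R] {m : ℕ}

/-- kernel of `R[y_1, …, y_m] → R[t]`, `y_j ↦ g_j t` -/
noncomputable def J (g : Fin m → R) : Ideal (MvPolynomial (Fin m) R) :=
  RingHom.ker (aeval fun j => Polynomial.C (g j) * Polynomial.X : MvPolynomial (Fin m) R →ₐ[R] Polynomial R)

/-- the ideal generated by the linear relations -/
noncomputable def L (g : Fin m → R) : Ideal (MvPolynomial (Fin m) R) :=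
  Ideal.span {F | ∃ c : Fin m → R, ∑ i, c i * g i = 0 ∧ F = ∑ i, C (c i) * X i}

/-- the conductor `L :_R J` of the ideal generated by `g` -/
noncomputable def cond (g : Fin m → R) : Ideal R where
  carrier := {r | ∀ F ∈ J g, C r * F ∈ L g}
  add_mem' ha hb F hF := by rw [map_add, add_mul]; exact add_mem (ha F hF) (hb F hF)
  zero_mem' F _ := by simp
  smul_mem' c r hr F hF := by
    rw [smul_eq_mul, map_mul, mul_assoc]; exact Ideal.mul_mem_left _ _ (hr F hF)

theorem dec (n : ℕ) (G : MvPolynomial (Fin 2) R) (hG : G.IsHomogeneous (n + 1)) :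
    ∃ (c : R) (G' : MvPolynomial (Fin 2) R), G'.IsHomogeneous n ∧ G = C c * X 1 ^ (n + 1) + X 0 * G' := by
  rw [G.as_sum]
  refine Finset.sum_induction _ (fun H => ∃ (c : R) (G' : MvPolynomial (Fin 2) R),
    G'.IsHomogeneous n ∧ H = C c * X 1 ^ (n + 1) + X 0 * G') ?_
    ⟨0, 0, isHomogeneous_zero _ _ _, by simp⟩ fun d hd => ?_
  · rintro _ _ ⟨c, G1, h1, rfl⟩ ⟨e, G2, h2, rfl⟩
    exact ⟨c + e, G1 + G2, h1.add h2, by rw [map_add]; ring⟩
  · have h1 : d 0 + d 1 = n + 1 := by
      by_contra hc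
      exact mem_support_iff.1 hd (hG.coeff_eq_zero (by rwa [Finsupp.degree_eq_sum, Fin.sum_univ_two]))
    rw [monomial_eq, Finsupp.prod_fintype _ _ (by simp), Fin.prod_univ_two]
    rcases h0 : d 0 with _ | k
    · exact ⟨coeff d G, 0, isHomogeneous_zero _ _ _, by rw [show d 1 = n + 1 by omega]; simp⟩
    · refine ⟨0, C (coeff d G) * (X 0 ^ k * X 1 ^ d 1), ?_, by simp; ring⟩
      have := ((isHomogeneous_X_pow (R := R) (0 : Fin 2) k).mul
        (isHomogeneous_X_pow (1 : Fin 2) (d 1))).C_mul (coeff d G)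
      rwa [show k + d 1 = n by omega] at this

theorem dec0 (G : MvPolynomial (Fin 2) R) (hG : G.IsHomogeneous 0) : ∃ c, G = C c :=
  ⟨_, totalDegree_eq_zero_iff_eq_C.1 (Nat.le_zero.1 hG.totalDegree_le)⟩

theorem ev_hom (g : Fin 2 → R) (n : ℕ) : ∀ G : MvPolynomial (Fin 2) R, G.IsHomogeneous n →
    aeval (fun j => Polynomial.C (g j) * Polynomial.X) G = Polynomial.C (eval g G) * Polynomial.X ^ n := by
  induction n with
  | zero => intro G hG; obtain ⟨c, rfl⟩ := dec0 G hG; simp
  | succ n ih =>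
    intro G hG
    obtain ⟨c, G', h, rfl⟩ := dec n G hG
    simp [ih G' h]; ring

theorem mem_cond (a f r : R)
    (h2 : ∀ (k n : ℕ) (c w : R), a ^ k * (c * f ^ n + a * w) = 0 → ∃ c' e, c = a * c' + e ∧ a ^ k * e = 0)
    (h3 : ∀ (k : ℕ) (c : R), a ^ (k + 2) * c = 0 → ∃ c', r * c = f * c' ∧ a * c' * a = 0) :
    r ∈ cond ![a, f] := by
  have l1 : (C f * X 0 - C a * X 1 : MvPolynomial (Fin 2) R) ∈ L ![a, f] :=
    Ideal.subset_span ⟨![f, -a], by simp; ring, by simp; ring⟩
  have l2 : ∀ c, c * a = 0 → (C c * X 0 : MvPolynomial (Fin 2) R) ∈ L ![a, f] := fun c hc =>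
    Ideal.subset_span ⟨![c, 0], by simpa using hc, by simp⟩
  have base : ∀ (k : ℕ) (c : R), a ^ k * c = 0 →
      (C r * (X 0 ^ k * C c) : MvPolynomial (Fin 2) R) ∈ L ![a, f] := by
    intro k c hc
    rcases k with _ | _ | k
    · simp at hc; simp [hc]
    · refine Ideal.mul_mem_left _ _ ?_
      simpa [mul_comm] using l2 c (by simpa [mul_comm] using hc)
    · obtain ⟨c', e1, e2⟩ := h3 k c hc
      have e3 : (C r * C c : MvPolynomial (Fin 2) R) = C f * C c' := by rw [← map_mul, e1, map_mul]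
      have := add_mem (Ideal.mul_mem_left _ (X 0 ^ (k + 1) * C c') l1)
        (Ideal.mul_mem_left _ (X 0 ^ k * X 1) (l2 _ e2))
      rw [map_mul] at this
      convert this using 1
      linear_combination (X 0 ^ (k + 2)) * e3
  have main : ∀ (n : ℕ) (G : MvPolynomial (Fin 2) R), G.IsHomogeneous n → ∀ k,
      a ^ k * eval ![a, f] G = 0 → C r * (X 0 ^ k * G) ∈ L ![a, f] := by
    intro n
    induction n with
    | zero => intro G hG k h; obtain ⟨c, rfl⟩ := dec0 G hG; exact base k c (by simpa using h)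
    | succ n ih =>
      intro G hG k h
      obtain ⟨c, G', hG', rfl⟩ := dec n G hG
      simp at h
      obtain ⟨c', e, rfl, he⟩ := h2 k _ _ _ h
      have i1 := ih (G' + C (c' * f) * X 1 ^ n) (hG'.add ((isHomogeneous_X_pow 1 n).C_mul _)) (k + 1)
        (by simp; linear_combination h - f ^ (n + 1) * he)
      have := add_mem (sub_mem i1 (Ideal.mul_mem_left _ (C r * X 0 ^ k * C c' * X 1 ^ n) l1))
        (Ideal.mul_mem_right (X 1 ^ (n + 1)) _ (base k e he))
      simp only [map_mul, map_add] at this ⊢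
      convert this using 1
      ring
  intro F hF
  have h0 := RingHom.mem_ker.1 hF
  rw [← sum_homogeneousComponent F, map_sum] at h0
  rw [← sum_homogeneousComponent F, Finset.mul_sum]
  refine Ideal.sum_mem _ fun n hn => ?_
  have h1 := congrArg (Polynomial.coeff · n) h0
  simp only [ev_hom _ _ _ (homogeneousComponent_isHomogeneous _ F), Polynomial.finsetSum_coeff,
    Polynomial.coeff_C_mul_X_pow, Finset.sum_ite_eq, if_pos hn, Polynomial.coeff_zero] at h1
  simpa using main n _ (homogeneousComponent_isHomogeneous n F) 0 (by simpa using h1)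

theorem of_cond (a s c : R) (hs : s ∈ cond ![a]) (hc : a ^ 2 * c = 0) : a * (s * c) = 0 := by
  have h1 := hs (C c * X 0 ^ 2) (RingHom.mem_ker.2 (by
    have := congrArg Polynomial.C hc
    simp at this ⊢; linear_combination Polynomial.X ^ 2 * this))
  have h2 : ∀ F ∈ L ![a], C a * F = 0 := fun F hF => by
    induction hF using Submodule.span_induction with
    | mem F hF =>
      obtain ⟨c, h, rfl⟩ := hF
      simp at h ⊢
      rw [← mul_assoc, ← map_mul, mul_comm a, h]; simp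
    | zero => simp
    | add F G _ _ h1 h2 => rw [mul_add, h1, h2, add_zero]
    | smul b F _ h => rw [smul_eq_mul, mul_left_comm, h, mul_zero]
  have h3 := congrArg (eval fun _ => (1 : R)) (h2 _ h1)
  simpa using h3

end Defs

abbrev A := Polynomial (Polynomial ℤ)
abbrev N := DualNumber ℤ
def B : Type := DualNumber N
noncomputable instance : CommRing B := inferInstanceAs (CommRing (DualNumber N))
noncomputable def ψ : Polynomial ℤ →+* N := Polynomial.eval₂RingHom (Int.castRingHom N) (2 * DualNumber.eps)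
noncomputable def φ : A →+* DualNumber N :=
  Polynomial.eval₂RingHom ((TrivSqZeroExt.inlHom N N).comp ψ) DualNumber.eps
noncomputable instance : Algebra A B := RingHom.toAlgebra (S := B) φ
noncomputable instance : Module Aᵐᵒᵖ B :=
  Module.compHom B ((RingHom.id A).fromOpposite fun x y => mul_comm x y)
instance : IsCentralScalar A B := ⟨fun _ _ => rfl⟩
instance : Module.Finite ℤ B := inferInstanceAs (Module.Finite ℤ ((ℤ × ℤ) × (ℤ × ℤ)))
instance : Module.Finite A B := Module.Finite.of_restrictScalars_finite ℤ A B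
abbrev R := TrivSqZeroExt A B
instance : Module.Finite A R := inferInstanceAs (Module.Finite A (A × B))
instance : IsNoetherianRing R :=
  have : IsScalarTower A R R := ⟨fun x y z => Algebra.smul_mul_assoc x y z⟩
  IsNoetherianRing.of_finite A R

open TrivSqZeroExt DualNumber

def sn (x : R) : DualNumber N := x.snd
def mk (p : A) (b : DualNumber N) : R := (p, b)
noncomputable def a : R := inl Polynomial.X

theorem ext2 {x y : R} (h1 : x.fst = y.fst) (h2 : sn x = sn y) : x = y := TrivSqZeroExt.ext h1 h2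
theorem sn_mul (x y : R) : sn (x * y) = φ x.fst * sn y + φ y.fst * sn x := rfl
theorem sn_add (x y : R) : sn (x + y) = sn x + sn y := rfl
theorem sn_zero : sn 0 = 0 := rfl
theorem sn_inl (p : A) : sn (inl p) = 0 := rfl
theorem sn_mk (p : A) (b : DualNumber N) : sn (mk p b) = b := rfl
theorem fst_mk (p : A) (b : DualNumber N) : (mk p b).fst = p := rfl
theorem φX : φ Polynomial.X = eps := by simp [φ]
theorem φC (w : Polynomial ℤ) : φ (Polynomial.C w) = inl (ψ w) := by simp [φ]
theorem two_eq : (2 : R) = inl 2 := (map_ofNat (inlHom A B) 2).symm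
theorem fa (k : ℕ) (c : R) : (a ^ k * c).fst = Polynomial.X ^ k * c.fst := by simp [a]
theorem sa (k : ℕ) (c : R) : sn (a ^ k * c) = eps ^ k * sn c := by
  rw [a, inl_pow, sn_mul, sn_inl, fst_inl, map_pow, φX, mul_zero, add_zero]
theorem f2 (k : ℕ) (c : R) : (c * 2 ^ k).fst = c.fst * 2 ^ k := by simp [two_eq]
theorem s2 (k : ℕ) (c : R) : sn (c * 2 ^ k) = 2 ^ k * sn c := by
  rw [two_eq, inl_pow, sn_mul, sn_inl, fst_inl, map_pow, map_ofNat, mul_zero, zero_add]

theorem tfN (k : ℕ) (x : N) (h : 2 ^ k * x = 0) : x = 0 := by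
  have e : (2 : N) ^ k * x = (2 ^ k : ℤ) • x := by simp
  rw [e] at h
  have h1 := congrArg fst h
  have h2 := congrArg snd h
  rw [fst_smul] at h1
  rw [snd_smul] at h2
  simp at h1 h2
  exact TrivSqZeroExt.ext h1 h2

theorem fst_two (k : ℕ) (x : DualNumber N) : (2 ^ k * x).fst = 2 ^ k * x.fst := by
  rw [fst_mul, fst_pow]; rfl

theorem eps_dvd (x : DualNumber N) (h : x.fst = 0) : x = eps * inl x.snd := by
  ext1 <;> simp [h]

theorem eps2 (k : ℕ) : (eps : DualNumber N) ^ (k + 2) = 0 := by rw [pow_add]; simp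

theorem X_dvd (j k : ℕ) (p : A) (h : Polynomial.X ^ j ∣ p * 2 ^ k) : Polynomial.X ^ j ∣ p := by
  rw [Polynomial.X_pow_dvd_iff] at h ⊢
  intro d hd
  have := h d hd
  rw [show (2 : A) ^ k = Polynomial.C (2 ^ k) by simp [map_ofNat], Polynomial.coeff_mul_C] at this
  exact (mul_eq_zero.1 this).resolve_right (pow_ne_zero _ two_ne_zero)

theorem eps_reg (j k : ℕ) (x : DualNumber N) (h : eps ^ j ∣ 2 ^ k * x) : eps ^ j ∣ x := by
  obtain ⟨y, hy⟩ := h
  rcases j with _ | _ | j
  · simp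
  · exact ⟨_, by simpa using eps_dvd x (tfN k _ (by rw [← fst_two, hy]; simp))⟩
  · rw [eps2, zero_mul] at hy
    have h1 : x.fst = 0 := tfN k _ (by rw [← fst_two, hy]; rfl)
    have h2 : x.snd = 0 := tfN k _ (by
      have := congrArg snd hy
      rw [show (2 : DualNumber N) ^ k = inl (2 ^ k) by
        rw [← inl_pow]; exact congrArg (· ^ k) (map_ofNat (inlHom N N) 2).symm] at this
      simpa using this)
    rw [show x = 0 from TrivSqZeroExt.ext h1 h2]; simp

theorem a_dvd (j : ℕ) (c : R) : a ^ j ∣ c ↔ Polynomial.X ^ j ∣ c.fst ∧ eps ^ j ∣ sn c := by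
  constructor
  · rintro ⟨y, rfl⟩
    exact ⟨⟨_, fa j y⟩, ⟨_, sa j y⟩⟩
  · rintro ⟨⟨p, hp⟩, b, hb⟩
    exact ⟨mk p b, ext2 (by rw [fa, fst_mk, hp]) (by rw [sa, sn_mk, hb])⟩

theorem reg (j k : ℕ) (c : R) (h : a ^ j ∣ c * 2 ^ k) : a ^ j ∣ c := by
  rw [a_dvd] at h ⊢
  rw [f2, s2] at h
  exact ⟨X_dvd j k _ h.1, eps_reg j k _ h.2⟩

theorem ann (k : ℕ) (c : R) (h : a ^ k * c = 0) : c.fst = 0 := by
  have := congrArg fst h
  rw [fa] at this
  simpa using this

theorem h2 (k n : ℕ) (c w : R) (h : a ^ k * (c * 2 ^ n + a * w) = 0) :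
    ∃ c' e, c = a * c' + e ∧ a ^ k * e = 0 := by
  have h1 := ann _ _ h
  have h3 : a ^ 1 ∣ c * 2 ^ n + a * w → ∃ c' e, c = a * c' + e ∧ a ^ k * e = 0 := fun hd => by
    obtain ⟨y, hy⟩ := reg 1 n c ((dvd_add_left (by simp)).1 hd)
    exact ⟨y, 0, by simpa using hy, mul_zero _⟩
  rcases k with _ | _ | k
  · exact h3 (by simp at h; simp [h])
  · have h4 := congrArg (fun x => (sn x).snd) h
    simp only [sa, sn_zero] at h4
    exact h3 ((a_dvd _ _).2 ⟨by rw [h1]; simp, _, by
      rw [pow_one]; exact eps_dvd _ (by simpa using h4)⟩)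
  · have h4 := fa 1 w
    rw [pow_one] at h4
    rw [fst_add, f2, h4] at h1
    obtain ⟨p, hp⟩ := X_dvd 1 n c.fst ⟨-w.fst, by linear_combination h1⟩
    refine ⟨mk p 0, mk 0 (sn c), ext2 ?_ ?_, ext2 ?_ ?_⟩
    · rw [fst_add, ← pow_one a, fa, hp, fst_mk, fst_mk, add_zero]
    · rw [sn_add, ← pow_one a, sa, sn_mk, sn_mk, mul_zero, zero_add]
    · rw [fa, fst_mk, mul_zero]; rfl
    · rw [sa, eps2, zero_mul]; rfl

theorem h3 (k : ℕ) (c : R) (h : a ^ (k + 2) * c = 0) :
    ∃ c', (inl (Polynomial.C Polynomial.X) : R) * c = 2 * c' ∧ a * c' * a = 0 := by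
  have h1 := ann _ _ h
  refine ⟨mk 0 (inl eps * sn c), ext2 ?_ ?_, ?_⟩
  · simp [h1, fst_mk]
  · rw [mul_comm 2, ← pow_one 2, s2, sn_mk, sn_mul, sn_inl, fst_inl, φC, ← mul_assoc]
    simp [ψ, inl_mul]
    exact congrArg (· * _) (congrArg (· * _) (map_ofNat (inlHom N N) 2))
  · rw [mul_right_comm, ← sq]
    exact ext2 (by rw [fa, fst_mk, mul_zero]; rfl) (by rw [sa, eps2 0, zero_mul]; rfl)

theorem even (w : A) : (2 : ℤ) ∣ (φ w).fst.snd := by
  have h : ∀ u : Polynomial ℤ, (2 : ℤ) ∣ (ψ u).snd := fun u => by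
    obtain ⟨q, hq⟩ := Polynomial.X_dvd_sub_C (p := u)
    have := congrArg ψ hq
    rw [map_sub, map_mul, sub_eq_iff_eq_add] at this
    rw [this]
    have e : (2 : N) = inl 2 := (map_ofNat (inlHom ℤ ℤ) 2).symm
    simp [ψ, e]
  obtain ⟨q, hq⟩ := Polynomial.X_dvd_sub_C (p := w)
  have := congrArg φ hq
  rw [map_sub, map_mul, sub_eq_iff_eq_add, φX, φC] at this
  rw [this]
  simpa using h _

theorem result : ∃ (R : Type) (_ : CommRing R) (_ : IsNoetherianRing R) (m : ℕ) (g : Fin m → R) (f : R),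
    (∀ (j : ℕ) (x : R), x * f ∈ Ideal.span (Set.range g) ^ j ↔ x ∈ Ideal.span (Set.range g) ^ j) ∧
      ∃ r ∈ cond (Fin.snoc g f : Fin (m + 1) → R), r ∉ cond g ⊔ Ideal.span {f} := by
  refine ⟨R, inferInstance, inferInstance, 1, ![a], 2, fun j x => ?_,
    inl (Polynomial.C Polynomial.X), ?_, fun h => ?_⟩
  · rw [show Set.range ![a] = {a} by simp, Ideal.span_singleton_pow, Ideal.mem_span_singleton,
      Ideal.mem_span_singleton]
    exact ⟨fun h => reg j 1 x (by rwa [pow_one]), fun h => h.mul_right _⟩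
  · rw [show (Fin.snoc ![a] 2 : Fin 2 → R) = ![a, 2] by ext1 i; fin_cases i <;> rfl]
    exact mem_cond a 2 _ h2 h3
  · obtain ⟨s, hs, y, hy, e⟩ := Submodule.mem_sup.1 h
    obtain ⟨w, rfl⟩ := Ideal.mem_span_singleton'.1 hy
    have h1 := of_cond a s (mk 0 1) hs
      (ext2 (by rw [fa, fst_mk, mul_zero]; rfl) (by rw [sa, eps2 0, zero_mul]; rfl))
    have h0 := congrArg sn h1
    rw [← pow_one a, sa, sn_mul, sn_mk, fst_mk, map_zero, zero_mul, add_zero, mul_one, pow_one] at h0
    have h4 : (φ s.fst).fst.snd = 0 := by simpa [sn_zero] using congrArg (fun x => x.snd.snd) h0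
    have h5 := congrArg (fun x : R => (φ x.fst).fst.snd) e
    have h6 := even w.fst
    have e1 : (2 : N) = inl 2 := (map_ofNat (inlHom ℤ ℤ) 2).symm
    rw [← pow_one 2] at h5
    simp only [fst_add, f2, fst_inl, φC, map_add, map_mul, map_pow, map_ofNat, mul_comm (φ _),
      fst_two] at h5
    simp [ψ, e1, h4] at h5
    rw [h5] at h6
    omega


end Pool.Agent.Results.MP_72f8f6_ag.Counter
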